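import Pool.Agent.Lib.MP_bae66e_nt.Mg.G075

/-!
# E12: second moment of `sig`
-/

set_option autoImplicit false

open Finset

namespace Pool.Agent.Lib.MP_bae66e_nt.LL

private lemma E12_sum_inv_sq (S : Finset ℕ) (w : ℕ) (hw : 1 ≤ w) (hS : ∀ p ∈ S, w < p) :
    ∑ p ∈ S, 1 / (p : ℝ) ^ 2 ≤ 1 / (w : ℝ) := by
  classical
  set N : ℕ := max w (S.sup id) with hN
  have hsub : S ⊆ Finset.Ioc w N := by
    intro p hp
    rw [Finset.mem_Ioc]
    exact ⟨hS p hp, (Finset.le_sup (f := id) hp).trans (le_max_right _ _)⟩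
  have h1 : ∑ p ∈ S, 1 / (p : ℝ) ^ 2 ≤ ∑ p ∈ Finset.Ioc w N, ((p : ℝ) ^ 2)⁻¹ := by
    simp only [one_div]
    exact Finset.sum_le_sum_of_subset_of_nonneg hsub (fun _ _ _ => by positivity)
  have h2 := sum_Ioc_inv_sq_le_sub (α := ℝ) (k := w) (n := N) (by omega) (le_max_left _ _)
  have h3 : (0 : ℝ) ≤ (N : ℝ)⁻¹ := by positivity
  rw [one_div]
  linarith

private lemma E12_sig_nonneg (w d : ℕ) : 0 ≤ sig w d := by
  unfold sig
  exact Finset.sum_nonneg fun _ _ => by positivity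

private lemma E12_sum_inj {ι κ : Type*} (s : Finset ι) (t : Finset κ) (e : ι → κ)
    (hmaps : ∀ i ∈ s, e i ∈ t) (hinj : Set.InjOn e s) (f : κ → ℝ) (hf : ∀ x, 0 ≤ f x) :
    ∑ i ∈ s, f (e i) ≤ ∑ x ∈ t, f x := by
  classical
  rw [← Finset.sum_image hinj]
  exact Finset.sum_le_sum_of_subset_of_nonneg (Finset.image_subset_iff.2 hmaps)
    (fun x _ _ => hf x)

private lemma E12_count (N m : ℕ) :
    (((Finset.Icc 1 N).filter (fun d => m ∣ d)).card : ℝ) ≤ (N : ℝ) / m := by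
  have h1 : (Finset.Icc 1 N).filter (fun d => m ∣ d) = (Finset.Ioc 0 N).filter (fun d => m ∣ d) := by
    congr 1
  rw [h1, Nat.Ioc_filter_dvd_card_eq_div]
  exact Nat.cast_div_le

/-- `∑_{d ≤ N} (sig w d)² ≤ 2 N / w` for `w ≥ 1`.

PROOF. `(sig w d)² = ∑_{p, p' ∣ d, p, p' > w} 1/(p p')`. Exchange: for `p = p'` there are at most
`N / p` multiples, `∑ N / p³ ≤ N / w`; for `p ≠ p'` at most `N / (p p')`, and
`∑_{p, p'} N / (p p')² ≤ N (∑_{p > w} 1/p²)² ≤ N / w²` (all primes `≤ N`, `∑_{n > w} 1/n² ≤ 1/w`). -/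
lemma sum_sig_sq_le (w N : ℕ) (hw : 1 ≤ w) :
    ∑ d ∈ Finset.Icc 1 N, (sig w d) ^ 2 ≤ 2 * N / w := by
  classical
  set P : Finset ℕ := (Finset.Icc 1 N).filter (fun p => p.Prime ∧ w < p) with hP
  have hw0 : (0 : ℝ) < w := by exact_mod_cast hw
  have hw1 : (1 : ℝ) ≤ w := by exact_mod_cast hw
  have hN0 : (0 : ℝ) ≤ N := Nat.cast_nonneg _
  have hPw : ∀ p ∈ P, w < p := fun p hp => (Finset.mem_filter.1 hp).2.2
  have hPp : ∀ p ∈ P, p.Prime := fun p hp => (Finset.mem_filter.1 hp).2.1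
  have hsig : ∀ d ∈ Finset.Icc 1 N, sig w d = ∑ p ∈ P, if p ∣ d then 1 / (p : ℝ) else 0 := by
    intro d hd
    rw [Finset.mem_Icc] at hd
    unfold sig
    rw [← Finset.sum_filter]
    refine Finset.sum_congr ?_ fun _ _ => rfl
    ext p
    rw [Finset.mem_filter, Finset.mem_filter, hP, Finset.mem_filter, Finset.mem_Icc,
      Nat.mem_primeFactors]
    constructor
    · rintro ⟨⟨h1, h2, _⟩, h4⟩
      exact ⟨⟨⟨h1.one_lt.le, (Nat.le_of_dvd (by omega) h2).trans hd.2⟩, h1, h4⟩, h2⟩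
    · rintro ⟨⟨_, h1, h4⟩, h2⟩
      exact ⟨⟨h1, h2, by omega⟩, h4⟩
  have hexp : ∑ d ∈ Finset.Icc 1 N, (sig w d) ^ 2 = ∑ p ∈ P, ∑ p' ∈ P,
      1 / (p : ℝ) * (1 / (p' : ℝ)) *
        (((Finset.Icc 1 N).filter (fun d => p ∣ d ∧ p' ∣ d)).card : ℝ) := by
    have h1 : ∀ d ∈ Finset.Icc 1 N, (sig w d) ^ 2 = ∑ p ∈ P, ∑ p' ∈ P,
        1 / (p : ℝ) * (1 / (p' : ℝ)) * (if p ∣ d ∧ p' ∣ d then 1 else 0) := by
      intro d hd
      rw [hsig d hd, sq, Finset.sum_mul_sum]
      refine Finset.sum_congr rfl fun p _ => Finset.sum_congr rfl fun p' _ => ?_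
      by_cases h2 : p ∣ d <;> by_cases h3 : p' ∣ d <;> simp [h2, h3]
    rw [Finset.sum_congr rfl h1, Finset.sum_comm]
    refine Finset.sum_congr rfl fun p _ => ?_
    rw [Finset.sum_comm]
    refine Finset.sum_congr rfl fun p' _ => ?_
    rw [← Finset.mul_sum, Finset.sum_boole]
  have hterm : ∀ p ∈ P, ∀ p' ∈ P, 1 / (p : ℝ) * (1 / (p' : ℝ)) *
      (((Finset.Icc 1 N).filter (fun d => p ∣ d ∧ p' ∣ d)).card : ℝ) ≤
      (N : ℝ) * (1 / (p : ℝ) ^ 2 * (1 / (p' : ℝ) ^ 2)) +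
        (if p = p' then (N : ℝ) * (1 / (p : ℝ) ^ 2) else 0) := by
    intro p hp p' hp'
    have hpp := hPp p hp
    have hpp' := hPp p' hp'
    have hp0 : (0 : ℝ) < p := by exact_mod_cast hpp.pos
    have hp0' : (0 : ℝ) < p' := by exact_mod_cast hpp'.pos
    have hp1 : (1 : ℝ) ≤ p := by exact_mod_cast hpp.one_lt.le
    by_cases heq : p = p'
    · subst heq
      rw [if_pos rfl]
      have hset : (Finset.Icc 1 N).filter (fun d => p ∣ d ∧ p ∣ d) =
          (Finset.Icc 1 N).filter (fun d => p ∣ d) := by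
        refine Finset.filter_congr fun d _ => ?_
        exact and_self_iff
      rw [hset]
      have h1 := E12_count N p
      have h2 : 1 / (p : ℝ) * (1 / (p : ℝ)) *
          (((Finset.Icc 1 N).filter (fun d => p ∣ d)).card : ℝ) ≤
          1 / (p : ℝ) * (1 / (p : ℝ)) * ((N : ℝ) / p) :=
        mul_le_mul_of_nonneg_left h1 (by positivity)
      have h3 : 1 / (p : ℝ) * (1 / (p : ℝ)) * ((N : ℝ) / p) ≤ (N : ℝ) * (1 / (p : ℝ) ^ 2) := by
        have e : 1 / (p : ℝ) * (1 / (p : ℝ)) * ((N : ℝ) / p) =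
            (N : ℝ) * (1 / (p : ℝ) ^ 2) * (1 / p) := by ring
        rw [e]
        refine mul_le_of_le_one_right (by positivity) ?_
        rw [div_le_one hp0]
        exact hp1
      have h4 : 0 ≤ (N : ℝ) * (1 / (p : ℝ) ^ 2 * (1 / (p : ℝ) ^ 2)) := by positivity
      linarith
    · rw [if_neg heq, add_zero]
      have hcop : Nat.Coprime p p' := (Nat.coprime_primes hpp hpp').2 heq
      have hset : (Finset.Icc 1 N).filter (fun d => p ∣ d ∧ p' ∣ d) =
          (Finset.Icc 1 N).filter (fun d => p * p' ∣ d) := by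
        refine Finset.filter_congr fun d _ => ?_
        constructor
        · rintro ⟨h1, h2⟩
          exact hcop.mul_dvd_of_dvd_of_dvd h1 h2
        · intro h1
          exact ⟨(dvd_mul_right _ _).trans h1, (dvd_mul_left _ _).trans h1⟩
      rw [hset]
      have h1 := E12_count N (p * p')
      have h2 : 1 / (p : ℝ) * (1 / (p' : ℝ)) *
          (((Finset.Icc 1 N).filter (fun d => p * p' ∣ d)).card : ℝ) ≤
          1 / (p : ℝ) * (1 / (p' : ℝ)) * ((N : ℝ) / ((p * p' : ℕ) : ℝ)) :=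
        mul_le_mul_of_nonneg_left h1 (by positivity)
      refine h2.trans (le_of_eq ?_)
      push_cast
      field_simp
  rw [hexp]
  refine (Finset.sum_le_sum fun p hp => Finset.sum_le_sum fun p' hp' => hterm p hp p' hp').trans ?_
  simp only [Finset.sum_add_distrib]
  have hA : ∑ p ∈ P, ∑ p' ∈ P, (N : ℝ) * (1 / (p : ℝ) ^ 2 * (1 / (p' : ℝ) ^ 2)) =
      (N : ℝ) * ((∑ p ∈ P, 1 / (p : ℝ) ^ 2) * ∑ p' ∈ P, 1 / (p' : ℝ) ^ 2) := by
    rw [Finset.sum_mul_sum, Finset.mul_sum]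
    refine Finset.sum_congr rfl fun p _ => ?_
    rw [Finset.mul_sum]
  have hB : ∑ p ∈ P, ∑ p' ∈ P, (if p = p' then (N : ℝ) * (1 / (p : ℝ) ^ 2) else 0) =
      (N : ℝ) * ∑ p ∈ P, 1 / (p : ℝ) ^ 2 := by
    rw [Finset.mul_sum]
    refine Finset.sum_congr rfl fun p hp => ?_
    rw [Finset.sum_ite_eq, if_pos hp]
  rw [hA, hB]
  have hs := E12_sum_inv_sq P w hw hPw
  have hs0 : 0 ≤ ∑ p ∈ P, 1 / (p : ℝ) ^ 2 := Finset.sum_nonneg fun _ _ => by positivity
  have hw2 : 1 / (w : ℝ) ≤ 1 := by rw [div_le_one hw0]; exact hw1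
  set s : ℝ := ∑ p ∈ P, 1 / (p : ℝ) ^ 2 with hsdef
  have h6 : s * s ≤ 1 / (w : ℝ) * 1 := mul_le_mul hs (hs.trans hw2) hs0 (by positivity)
  have h7 : (N : ℝ) * (s * s) ≤ N * (1 / (w : ℝ)) := by
    apply mul_le_mul_of_nonneg_left _ hN0
    linarith
  have h8 : (N : ℝ) * s ≤ N * (1 / (w : ℝ)) := mul_le_mul_of_nonneg_left hs hN0
  have h9 : 2 * (N : ℝ) / w = N * (1 / (w : ℝ)) + N * (1 / (w : ℝ)) := by ring
  rw [h9]
  linarith

/-- `∑_{|d| ≤ N} (sig w |d - a|)² ≤ 8 N / w` for `|a| ≤ N` (`|d - a| ≤ 2 N`, each value is taken at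
most twice; `sig w 0 = 0`). -/
lemma sum_sig_int_le (w N : ℕ) (hw : 1 ≤ w) (a : ℤ) (ha : |a| ≤ (N : ℤ)) :
    ∑ d ∈ Finset.Icc (-(N : ℤ)) (N : ℤ), (sig w (d - a).natAbs) ^ 2 ≤ 8 * N / w := by
  classical
  have hw0 : (0 : ℝ) < w := by exact_mod_cast hw
  obtain ⟨ha1, ha2⟩ := abs_le.1 ha
  have hsig0 : sig w 0 = 0 := by unfold sig; simp
  -- split into d < a, d = a, d > a
  have hb := sum_sig_sq_le w (2 * N) hw
  have hpos : ∑ d ∈ (Finset.Icc (-(N : ℤ)) (N : ℤ)).filter (fun d => a < d),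
      (sig w (d - a).natAbs) ^ 2 ≤ ∑ e ∈ Finset.Icc 1 (2 * N), (sig w e) ^ 2 := by
    refine E12_sum_inj _ _ (fun d : ℤ => (d - a).natAbs) ?_ ?_ (fun e => (sig w e) ^ 2)
      (fun e => sq_nonneg _)
    · intro d hd
      rw [Finset.mem_filter, Finset.mem_Icc] at hd
      rw [Finset.mem_Icc]
      omega
    · intro d hd d' hd' heq
      rw [Finset.mem_coe, Finset.mem_filter, Finset.mem_Icc] at hd hd'
      simp only at heq
      omega
  have hneg : ∑ d ∈ (Finset.Icc (-(N : ℤ)) (N : ℤ)).filter (fun d => ¬ a < d),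
      (sig w (d - a).natAbs) ^ 2 ≤ ∑ e ∈ Finset.Icc 1 (2 * N), (sig w e) ^ 2 := by
    have hz : ∑ d ∈ (Finset.Icc (-(N : ℤ)) (N : ℤ)).filter (fun d => ¬ a < d),
        (sig w (d - a).natAbs) ^ 2 =
        ∑ d ∈ ((Finset.Icc (-(N : ℤ)) (N : ℤ)).filter (fun d => ¬ a < d)).filter (fun d => d ≠ a),
        (sig w (d - a).natAbs) ^ 2 := by
      symm
      refine Finset.sum_filter_of_ne fun d _ hne heq => hne ?_
      rw [heq]
      simp [hsig0]
    rw [hz]
    refine E12_sum_inj _ _ (fun d : ℤ => (d - a).natAbs) ?_ ?_ (fun e => (sig w e) ^ 2)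
      (fun e => sq_nonneg _)
    · intro d hd
      rw [Finset.mem_filter, Finset.mem_filter, Finset.mem_Icc] at hd
      rw [Finset.mem_Icc]
      omega
    · intro d hd d' hd' heq
      rw [Finset.mem_coe, Finset.mem_filter, Finset.mem_filter, Finset.mem_Icc] at hd hd'
      simp only at heq
      omega
  rw [← Finset.sum_filter_add_sum_filter_not (Finset.Icc (-(N : ℤ)) (N : ℤ)) (fun d => a < d)]
  have e : 8 * (N : ℝ) / w = 2 * ((2 * N : ℕ) : ℝ) / w + 2 * ((2 * N : ℕ) : ℝ) / w := by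
    push_cast
    ring
  rw [e]
  linarith

/-- Over the shifts: for `i < l` in `Fin (k + 1)`,
`∑_{h ∈ shifts k Y} (sig w |h_i - h_l|)² ≤ C Y^k / w`, `C = 8 * 3^k`.

PROOF. As in `sum_pair_le` (E01): `hh h l = h l'` is a free variable; sum over it first. The other
`k - 1` variables have at most `(2 Y + 1)^{k-1} ≤ (3 Y)^{k-1}` values. -/
lemma sum_sig_shifts_le (k w Y : ℕ) (hw : 1 ≤ w) (hY : 1 ≤ Y) (i l : Fin (k + 1)) (hil : i < l) :
    ∑ h ∈ shifts k Y, (sig w (hh h i - hh h l).natAbs) ^ 2 ≤ 8 * 3 ^ k * (Y : ℝ) ^ k / w := by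
  classical
  have hw0 : (0 : ℝ) < w := by exact_mod_cast hw
  have hY0 : (0 : ℝ) < Y := by exact_mod_cast hY
  obtain ⟨l', rfl⟩ : ∃ l' : Fin k, l = l'.succ := by
    refine ⟨l.pred (fun h0 => ?_), (Fin.succ_pred _ _).symm⟩
    rw [h0] at hil
    exact (Fin.not_lt_zero i) hil
  set T : Finset (Fin k → ℤ) := Fintype.piFinset (fun m : Fin k =>
    if m = l' then ({0} : Finset ℤ) else Finset.Icc (-(Y : ℤ)) (Y : ℤ)) with hT
  have hmaps : ∀ h ∈ shifts k Y, Function.update h l' 0 ∈ T := by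
    intro h hh'
    rw [hT, Fintype.mem_piFinset]
    intro m
    by_cases hm : m = l'
    · subst hm
      rw [if_pos rfl, Function.update_self]
      exact Finset.mem_singleton_self _
    · rw [if_neg hm, Function.update_of_ne hm]
      exact (Fintype.mem_piFinset.1 hh') m
  have hcard : (T.card : ℝ) * Y ≤ 3 ^ k * (Y : ℝ) ^ k := by
    have h1 : T.card = ∏ m : Fin k, (if m = l' then 1 else (2 * Y + 1)) := by
      rw [hT, Fintype.card_piFinset]
      refine Finset.prod_congr rfl fun m _ => ?_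
      split_ifs
      · simp
      · rw [Int.card_Icc]
        omega
    have h2 : (T.card : ℝ) * Y ≤ ∏ m : Fin k, (if m = l' then (Y : ℝ) else (3 * Y)) := by
      rw [h1, ← Finset.mul_prod_erase _ _ (Finset.mem_univ l'),
        ← Finset.mul_prod_erase _ _ (Finset.mem_univ l'), if_pos rfl, if_pos rfl, one_mul]
      push_cast
      rw [mul_comm]
      refine mul_le_mul_of_nonneg_left ?_ hY0.le
      refine Finset.prod_le_prod (fun m _ => by split_ifs <;> positivity) (fun m hm => ?_)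
      have hne := (Finset.mem_erase.1 hm).1
      rw [if_neg hne, if_neg hne]
      have : (1 : ℝ) ≤ Y := by exact_mod_cast hY
      linarith
    refine h2.trans ?_
    have h3 : ∏ m : Fin k, (if m = l' then (Y : ℝ) else (3 * Y)) ≤ ∏ _m : Fin k, (3 * (Y : ℝ)) := by
      refine Finset.prod_le_prod (fun m _ => by split_ifs <;> positivity) (fun m _ => ?_)
      split_ifs <;> linarith
    refine h3.trans (le_of_eq ?_)
    rw [Finset.prod_const, Finset.card_univ, Fintype.card_fin, mul_pow]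
  rw [← Finset.sum_fiberwise_of_maps_to hmaps]
  have hfib : ∀ g ∈ T, ∑ h ∈ (shifts k Y).filter (fun h => Function.update h l' 0 = g),
      (sig w (hh h i - hh h l'.succ).natAbs) ^ 2 ≤ 8 * Y / w := by
    intro g hg
    have hgi : |hh g i| ≤ (Y : ℤ) := by
      refine Fin.cases ?_ (fun m => ?_) i
      · show |(0 : ℤ)| ≤ _
        simp
      · show |g m| ≤ _
        have h4 := (Fintype.mem_piFinset.1 hg) m
        by_cases hm : m = l'
        · rw [if_pos hm, Finset.mem_singleton] at h4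
          rw [h4]
          simp
        · rw [if_neg hm, Finset.mem_Icc] at h4
          rw [abs_le]
          exact h4
    have h5 : ∀ h : Fin k → ℤ, Function.update h l' 0 = g → hh h i = hh g i := by
      intro h hg'
      rw [← hg']
      revert hil
      refine Fin.cases (fun _ => rfl) (fun m hm => ?_) i
      show h m = Function.update h l' 0 m
      have hne : m ≠ l' := by
        rintro rfl
        exact lt_irrefl _ hm
      rw [Function.update_of_ne hne]
    refine le_trans ?_ (sum_sig_int_le w Y hw (hh g i) hgi)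
    have e0 : ∑ h ∈ (shifts k Y).filter (fun h => Function.update h l' 0 = g),
        (sig w (hh h i - hh h l'.succ).natAbs) ^ 2 =
        ∑ h ∈ (shifts k Y).filter (fun h => Function.update h l' 0 = g),
        (fun d : ℤ => (sig w (d - hh g i).natAbs) ^ 2) (h l') := by
      refine Finset.sum_congr rfl fun h hh' => ?_
      rw [Finset.mem_filter] at hh'
      have e2 : (hh h i - hh h l'.succ).natAbs = (h l' - hh g i).natAbs := by
        rw [← h5 h hh'.2]
        have e3 : hh h l'.succ = h l' := rfl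
        rw [e3]
        omega
      rw [e2]
    rw [e0]
    refine E12_sum_inj _ _ (fun h : Fin k → ℤ => h l') ?_ ?_
      (fun d : ℤ => (sig w (d - hh g i).natAbs) ^ 2) (fun _ => sq_nonneg _)
    · intro h hh'
      rw [Finset.mem_filter] at hh'
      exact (Fintype.mem_piFinset.1 hh'.1) l'
    · intro h1 hh1 h2 hh2 heq
      rw [Finset.mem_coe, Finset.mem_filter] at hh1 hh2
      simp only at heq
      funext m
      by_cases hm : m = l'
      · rw [hm, heq]
      · have e1 : Function.update h1 l' 0 m = Function.update h2 l' 0 m := by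
          rw [hh1.2, hh2.2]
        rwa [Function.update_of_ne hm, Function.update_of_ne hm] at e1
  refine (Finset.sum_le_sum hfib).trans ?_
  rw [Finset.sum_const, nsmul_eq_mul]
  have e4 : (T.card : ℝ) * (8 * Y / w) = 8 / w * (T.card * Y) := by ring
  have e5 : 8 * 3 ^ k * (Y : ℝ) ^ k / w = 8 / w * (3 ^ k * (Y : ℝ) ^ k) := by ring
  rw [e4, e5]
  exact mul_le_mul_of_nonneg_left hcard (by positivity)

end Pool.Agent.Lib.MP_bae66e_nt.LL
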